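import Pool.Agent.Lib.MP_0becda_co.PSL.Even

/-!
The groups between `PSL(2, F)` and `PGL(2, F)` carry rank one data.
-/

namespace Pool.Agent.Lib.MP_0becda_co.PSL

open Matrix

variable {F : Type} [Field F]

/-- class of an invertible matrix -/
noncomputable def cls (A : Matrix (Fin 2) (Fin 2) F) (h : A.det ≠ 0) : ProjGenLinGroup (Fin 2) F :=
  ProjGenLinGroup.mk (GeneralLinearGroup.mkOfDetNeZero A h)

theorem cls_mul {A B : Matrix (Fin 2) (Fin 2) F} (hA : A.det ≠ 0) (hB : B.det ≠ 0) :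
    cls A hA * cls B hB = cls (A * B) (by rw [det_mul]; exact mul_ne_zero hA hB) := by
  rw [cls, cls, cls, ← map_mul]
  exact congrArg _ (Units.ext rfl)

theorem cls_eq_iff {A B : Matrix (Fin 2) (Fin 2) F} (hA : A.det ≠ 0) (hB : B.det ≠ 0) :
    cls A hA = cls B hB ↔ ∃ u : F, u ≠ 0 ∧ u • A = B := by
  rw [cls, cls, ProjGenLinGroup.mk_eq_mk_iff]
  constructor
  · rintro ⟨u, hu⟩
    refine ⟨u, u.ne_zero, ?_⟩
    have h : A * scalar (Fin 2) (u : F) = B := congrArg Units.val hu
    rw [← h, scalar_apply, ← smul_one_eq_diagonal, Matrix.mul_smul, Matrix.mul_one]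
  · rintro ⟨u, hu, h⟩
    refine ⟨Units.mk0 u hu, Units.ext ?_⟩
    show A * scalar (Fin 2) u = B
    rw [← h, scalar_apply, ← smul_one_eq_diagonal, Matrix.mul_smul, Matrix.mul_one]

theorem cls_one : cls (1 : Matrix (Fin 2) (Fin 2) F) (by simp) = 1 := by
  rw [cls, ← ProjGenLinGroup.mk_one]
  exact congrArg _ (Units.ext rfl)

theorem cls_congr {A B : Matrix (Fin 2) (Fin 2) F} {hA : A.det ≠ 0} {hB : B.det ≠ 0} (u : F)
    (hu : u ≠ 0) (h : u • A = B) : cls A hA = cls B hB := (cls_eq_iff hA hB).2 ⟨u, hu, h⟩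

theorem exists_cls (g : ProjGenLinGroup (Fin 2) F) : ∃ A h, g = cls A h := by
  obtain ⟨A, rfl⟩ := ProjGenLinGroup.mk_surjective g
  exact ⟨A.1, GeneralLinearGroup.det_ne_zero A, congrArg _ (Units.ext rfl)⟩

theorem cls_mem {G : Subgroup (ProjGenLinGroup (Fin 2) F)}
    (hG : (SpecialLinearGroup.toPGL (n := Fin 2) (R := F)).range ≤ G)
    {A : Matrix (Fin 2) (Fin 2) F} (h : A.det ≠ 0) (h1 : A.det = 1) : cls A h ∈ G :=
  hG ⟨⟨A, h1⟩, congrArg ProjGenLinGroup.mk (Units.ext rfl)⟩

/-- root elements -/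
noncomputable def uu : Multiplicative F →* ProjGenLinGroup (Fin 2) F where
  toFun a := cls !![1, a.toAdd; 0, 1] (by simp)
  map_one' := by
    rw [← cls_one]
    exact cls_congr 1 one_ne_zero (by ext i j; fin_cases i <;> fin_cases j <;> simp)
  map_mul' a b := by
    rw [cls_mul]
    exact cls_congr 1 one_ne_zero (by ext i j; fin_cases i <;> fin_cases j <;> simp [add_comm])

/-- torus elements -/
noncomputable def dd : Fˣ →* ProjGenLinGroup (Fin 2) F where
  toFun t := cls !![(t : F), 0; 0, 1] (by simp)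
  map_one' := by
    rw [← cls_one]
    exact cls_congr 1 one_ne_zero (by ext i j; fin_cases i <;> fin_cases j <;> simp)
  map_mul' a b := by
    rw [cls_mul]
    exact cls_congr 1 one_ne_zero (by ext i j; fin_cases i <;> fin_cases j <;> simp)

/-- the Weyl element -/
noncomputable def ww : ProjGenLinGroup (Fin 2) F := cls !![0, -1; 1, 0] (by simp)

theorem uu_apply (a : Multiplicative F) : uu a = cls !![1, a.toAdd; 0, 1] (by simp) := rfl

theorem dd_apply (t : Fˣ) : dd t = cls !![(t : F), 0; 0, 1] (by simp) := rfl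

theorem uu_dd (a : Multiplicative F) (t : Fˣ) :
    uu a * dd t = cls !![(t : F), a.toAdd; 0, 1] (by simp) := by
  rw [uu_apply, dd_apply, cls_mul]
  exact cls_congr 1 one_ne_zero (by ext i j; fin_cases i <;> fin_cases j <;> simp)

theorem uu_dd_ww_uu (a b : Multiplicative F) (t : Fˣ) :
    uu a * dd t * ww * uu b
      = cls !![a.toAdd, a.toAdd * b.toAdd - t; 1, b.toAdd] (by simp) := by
  rw [uu_dd, uu_apply, ww, cls_mul, cls_mul]
  exact cls_congr 1 one_ne_zero (by
    ext i j; fin_cases i <;> fin_cases j <;> simp; ring)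

/-- multiplication action on the root group -/
def sc : Fˣ →* MulAut (Multiplicative F) where
  toFun t :=
    { toFun := fun a => Multiplicative.ofAdd ((t : F) * a.toAdd)
      invFun := fun a => Multiplicative.ofAdd (((t⁻¹ : Fˣ) : F) * a.toAdd)
      left_inv := fun a => by simp
      right_inv := fun a => by simp
      map_mul' := fun a b => by simp [mul_add] }
  map_one' := by ext a; simp
  map_mul' s t := by ext a; simp [mul_assoc]

theorem sc_apply (t : Fˣ) (a : Multiplicative F) : (sc t a).toAdd = t * a.toAdd := rfl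

theorem uu_sc (t : Fˣ) (a : Multiplicative F) : uu (sc t a) = dd t * uu a * (dd t)⁻¹ := by
  rw [eq_mul_inv_iff_mul_eq, uu_dd, uu_apply, dd_apply, cls_mul]
  exact cls_congr 1 one_ne_zero (by ext i j; fin_cases i <;> fin_cases j <;> simp [sc_apply])

theorem ww_ww : (ww : ProjGenLinGroup (Fin 2) F) * ww = 1 := by
  rw [ww, cls_mul, ← cls_one]
  exact cls_congr (-1) (by simp) (by ext i j; fin_cases i <;> fin_cases j <;> simp)

theorem ww_dd (t : Fˣ) : ww * dd t = (dd t)⁻¹ * ww := by
  rw [eq_inv_mul_iff_mul_eq, ww, dd_apply, cls_mul, cls_mul]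
  exact cls_congr ((t : F)⁻¹) (by simp) (by ext i j; fin_cases i <;> fin_cases j <;> simp)

theorem uu_dd_inj {a b : Multiplicative F} {s t : Fˣ} (h : uu a * dd s = uu b * dd t) :
    a = b ∧ s = t := by
  rw [uu_dd, uu_dd, cls_eq_iff] at h
  obtain ⟨u, -, h⟩ := h
  have h1 := congrFun (congrFun h 1) 1
  have h2 := congrFun (congrFun h 0) 1
  have h3 := congrFun (congrFun h 0) 0
  simp at h1 h2 h3
  subst h1
  exact ⟨by simpa using h2, Units.ext (by simpa using h3)⟩

theorem ww_key {a b : Multiplicative F} {t : Fˣ} (h : ww * uu a * ww = uu b * dd t) : a = 1 := by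
  rw [uu_dd, uu_apply, ww, cls_mul, cls_mul, cls_eq_iff] at h
  obtain ⟨u, hu, h⟩ := h
  have h1 := congrFun (congrFun h 1) 0
  simpa [Matrix.mul_apply, Fin.sum_univ_two, hu] using h1

theorem pgl_cover (g : ProjGenLinGroup (Fin 2) F) :
    (∃ a t, g = uu a * dd t) ∨ ∃ a t b, g = uu a * dd t * ww * uu b := by
  obtain ⟨A, hA, rfl⟩ := exists_cls g
  have hd := hA
  rw [det_fin_two] at hd
  by_cases hc : A 1 0 = 0
  · rw [hc, mul_zero, sub_zero] at hd
    have h0 := left_ne_zero_of_mul hd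
    have h1 := right_ne_zero_of_mul hd
    refine Or.inl ⟨Multiplicative.ofAdd (A 0 1 / A 1 1),
      Units.mk0 (A 0 0 / A 1 1) (div_ne_zero h0 h1), ?_⟩
    rw [uu_dd]
    refine cls_congr (A 1 1)⁻¹ (inv_ne_zero h1) ?_
    ext i j; fin_cases i <;> fin_cases j <;> simp [hc, h1, div_eq_inv_mul]
  · refine Or.inr ⟨Multiplicative.ofAdd (A 0 0 / A 1 0),
      Units.mk0 ((A 0 0 * A 1 1 - A 0 1 * A 1 0) / A 1 0 ^ 2) (div_ne_zero hd (pow_ne_zero 2 hc)),
      Multiplicative.ofAdd (A 1 1 / A 1 0), ?_⟩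
    rw [uu_dd_ww_uu]
    refine cls_congr (A 1 0)⁻¹ (inv_ne_zero hc) ?_
    ext i j; fin_cases i <;> fin_cases j <;> simp [hc, div_eq_inv_mul]
    field_simp
    ring

variable {G : Subgroup (ProjGenLinGroup (Fin 2) F)}
  (hG : (SpecialLinearGroup.toPGL (n := Fin 2) (R := F)).range ≤ G)

include hG

theorem uu_mem (a : Multiplicative F) : uu a ∈ G := cls_mem hG _ (by simp)

theorem ww_mem : ww ∈ G := cls_mem hG _ (by simp)

theorem dd_sq_mem (t : Fˣ) : dd (t * t) ∈ G := by
  have h : dd (t * t) = cls !![(t : F), 0; 0, (t : F)⁻¹] (by simp) :=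
    cls_congr (t : F)⁻¹ (by simp) (by ext i j; fin_cases i <;> fin_cases j <;> simp)
  rw [h]
  exact cls_mem hG _ (by simp)

/-- rank one data of a group between `PSL(2, F)` and `PGL(2, F)` -/
noncomputable def zd : ZD G (Multiplicative F) (G.comap (dd (F := F))) where
  U := uu.codRestrict G (uu_mem hG)
  T := (dd.comp (G.comap (dd (F := F))).subtype).codRestrict G fun t => t.2
  w := ⟨ww, ww_mem hG⟩
  ρ := sc.comp (G.comap (dd (F := F))).subtype
  conj t a := Subtype.ext (uu_sc t.1 a)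
  ww := Subtype.ext ww_ww
  wT t := Subtype.ext (ww_dd t.1)
  cover g := by
    rcases pgl_cover g.1 with ⟨a, t, h⟩ | ⟨a, t, b, h⟩
    · refine Or.inl ⟨a, ⟨t, ?_⟩, Subtype.ext h⟩
      have := G.mul_mem (G.inv_mem (uu_mem hG a)) g.2
      rwa [h, inv_mul_cancel_left] at this
    · refine Or.inr ⟨a, ⟨t, ?_⟩, b, Subtype.ext h⟩
      have := G.mul_mem (G.inv_mem (uu_mem hG a)) (G.mul_mem (G.mul_mem g.2
        (G.inv_mem (uu_mem hG b))) (G.inv_mem (ww_mem hG)))
      rwa [h, mul_inv_cancel_right, mul_inv_cancel_right, inv_mul_cancel_left] at this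
  injU a b h := (uu_dd_inj (s := 1) (t := 1) (congrArg (· * dd 1) (congrArg Subtype.val h))).1
  injT s t h := Subtype.ext
    (uu_dd_inj (a := 1) (b := 1) (congrArg (uu 1 * ·) (congrArg Subtype.val h))).2
  key a b t h := ww_key (congrArg Subtype.val h)
  fpf t a h := by
    have h1 : (t.1 : F) * a.toAdd = a.toAdd := congrArg Multiplicative.toAdd h
    by_cases ha : a.toAdd = 0
    · exact Or.inr ha
    · exact Or.inl (Subtype.ext (Units.ext ((mul_left_eq_self₀.1 h1).resolve_right ha)))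

theorem ter_pgl [Fintype F] (hF : 3 ≤ Fintype.card F) : Ter G := by
  classical
  have hfin : Finite (ProjGenLinGroup (Fin 2) F) :=
    Finite.of_surjective _ ProjGenLinGroup.mk_surjective
  obtain ⟨γ, hγ⟩ := IsCyclic.exists_generator (α := G.comap (dd (F := F)))
  have hγ' := orderOf_eq_card_of_forall_mem_zpowers hγ
  have hQ : Fintype.card (Multiplicative F) = Fintype.card F := Fintype.card_multiplicative F
  have hu : Nat.card Fˣ = Fintype.card F - 1 := by
    rw [Nat.card_eq_fintype_card, Fintype.card_units]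
  rcases Nat.even_or_odd (Fintype.card F) with he | ho
  · have h2 : ringChar F = 2 := FiniteField.even_card_iff_char_two.2 (Nat.even_iff.1 he)
    have htop : G.comap (dd (F := F)) = ⊤ := by
      rw [eq_top_iff]
      intro t _
      obtain ⟨s, hs⟩ := FiniteField.isSquare_of_char_two h2 (t : F)
      have hs0 : s ≠ 0 := fun h => t.ne_zero (by rw [hs, h, mul_zero])
      have : t = Units.mk0 s hs0 * Units.mk0 s hs0 := Units.ext hs
      rw [this]
      exact dd_sq_mem hG _
    have hk : Nat.card (G.comap (dd (F := F))) = Fintype.card F - 1 := by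
      rw [htop, Subgroup.card_top, hu]
    rw [Nat.even_iff] at he
    refine (zd hG).ter_even hγ' rfl (by rw [hk, Nat.odd_iff]; omega) (by omega) (by omega)
      fun a b ha hb => ⟨⟨Units.mk0 (b.toAdd / a.toAdd) (div_ne_zero hb ha), by
        rw [htop]; trivial⟩, ?_⟩
    exact div_mul_cancel₀ b.toAdd (show a.toAdd ≠ 0 from ha)
  · obtain ⟨d, hd⟩ := Subgroup.card_subgroup_dvd_card (G.comap (dd (F := F)))
    exact (zd hG).ter_odd (d := d) hγ' rfl (by omega) (hQ ▸ ho)

end Pool.Agent.Lib.MP_0becda_co.PSL
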