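import Pool.Agent.Lib.MP_0becda_co.PSL.Base

/-!
Rank one groups with a root group of odd order are terraced.
-/

namespace Pool.Agent.Lib.MP_0becda_co.PSL

open Finset

theorem succ_div_mod {q : ℕ} (hq : 0 < q) (m : ℕ) :
    ((m + 1) % q = 0 ∧ m % q + 1 = q ∧ (m + 1) / q = m / q + 1) ∨
      ((m + 1) % q = m % q + 1 ∧ (m + 1) / q = m / q) := by
  have h1 := Nat.div_add_mod m q
  have h2 := Nat.mod_lt m hq
  generalize m / q = j at *
  generalize m % q = i at *
  subst h1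
  by_cases h : i + 1 = q
  · left
    have h3 : q * j + i + 1 = q * (j + 1) := by rw [mul_add, mul_one, add_assoc, h]
    rw [h3, Nat.mul_mod_right, Nat.mul_div_cancel_left _ hq]
    exact ⟨rfl, h, rfl⟩
  · right
    have h3 : i + 1 < q := by omega
    rw [add_assoc, Nat.mul_add_mod, Nat.mul_add_div hq, Nat.mod_eq_of_lt h3, Nat.div_eq_of_lt h3]
    exact ⟨rfl, rfl⟩

section cyc
variable {K : Type} [CommGroup K] [Finite K] {γ : K} {k : ℕ}

theorem count_pow (hγ : orderOf γ = k) (hk : Nat.card K = k) (m t : K) :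
    ∑ j ∈ range k, ind (m * γ ^ j = t) = 1 :=
  sum_ind_inj' (fun j => m * γ ^ j) k hk.symm
    (fun _ _ hi hj h => pow_inj hγ hi hj (mul_left_cancel h)) t

theorem count_pow_mul (hγ : orderOf γ = k) (hk : Nat.card K = k) (t : K) (d : ℕ) :
    ∑ i ∈ range (k * d), ind (γ ^ (i + 1) = t) = d := by
  induction d with
  | zero => simp
  | succ d ih =>
    rw [mul_add, mul_one, sum_range_add, ih]
    congr 1
    refine Eq.trans (sum_congr rfl fun i _ => ?_) (count_pow hγ hk (γ ^ (k * d + 1)) t)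
    rw [← pow_add, add_right_comm]

theorem ter_cyc (hγ : orderOf γ = k) (hk : Nat.card K = k) : Ter K := by
  refine ter_solvable _ K rfl fun h => ?_
  have h1 : orderOf γ ∣ 2 := orderOf_dvd_of_pow_eq_one (by rw [pow_two, h.1])
  have h2 := Nat.le_of_dvd (by omega) h1
  have h3 := h.2
  omega

end cyc

/-- torus coordinates along a strand with constant colours -/
def sg {K : Type} [CommGroup K] (κ : ℕ → K) : ℕ → K → K
  | 0, s => s
  | i + 1, s => κ i * (sg κ i s)⁻¹

theorem sg_inj {K : Type} [CommGroup K] (κ : ℕ → K) (i : ℕ) : Function.Injective (sg κ i) := by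
  induction i with
  | zero => exact fun _ _ h => h
  | succ i ih => exact fun _ _ h => ih (inv_injective (mul_left_cancel h))

theorem sg_even {K : Type} [CommGroup K] (κ : ℕ → K) (i : ℕ) :
    ∃ b, ∀ s, sg κ (2 * i) s = b * s := by
  induction i with
  | zero => exact ⟨1, fun s => by simp [sg]⟩
  | succ i ih =>
    obtain ⟨b, hb⟩ := ih
    refine ⟨κ (2 * i + 1) * (κ (2 * i))⁻¹ * b, fun s => ?_⟩
    rw [show 2 * (i + 1) = 2 * i + 1 + 1 by ring, sg, sg, hb, mul_inv_rev, inv_inv,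
      mul_comm (b * s), ← mul_assoc, ← mul_assoc]

namespace ZD

variable {G Q K : Type} [Group G] [CommGroup Q] [CommGroup K] (Z : ZD G Q K)

theorem T_U (t : K) (a : Q) : Z.T t * Z.U a = Z.U (Z.ρ t a) * Z.T t := by
  rw [Z.conj, inv_mul_cancel_right]

theorem W_U (y : G) (E : Multiset (Sym2 Q)) (z : G) :
    W (E.map (Sym2.map fun a => y * Z.U a)) z = W (E.map (Sym2.map Z.U)) z := by
  rw [← W_map_mul (E.map (Sym2.map Z.U)) y z, Multiset.map_map]
  congr 1
  refine Multiset.map_congr rfl fun e _ => ?_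
  rw [Function.comp, Sym2.map_map]
  rfl

theorem W_U_eq {E : Multiset (Sym2 Q)} (hE : ∀ a, W E a = ind (a ≠ 1)) (b : Q) (t : K) :
    W (E.map (Sym2.map Z.U)) (Z.U b * Z.T t) = ind (t = 1 ∧ b ≠ 1) := by
  by_cases ht : t = 1
  · subst ht
    rw [map_one, mul_one, W_map_hom _ Z.injU, hE]
    exact ind_congr (by simp)
  · rw [ind_neg fun h => ht h.1]
    refine W_map_not _ _ fun a h => ht ?_
    exact (Z.injH (a := a) (t := 1) (a' := b) (t' := t) (by rw [map_one, mul_one, h])).2.symm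

variable [Fintype Q]

theorem K_dir {u v : K} (h : u⁻¹ * v ≠ 1) (b : Q) (t : K) :
    ∑ a, ind ((Z.T u * Z.U a)⁻¹ * (Z.T v * Z.U a) = Z.U b * Z.T t) = ind (u⁻¹ * v = t) := by
  have h1 : ∀ a, (Z.T u * Z.U a)⁻¹ * (Z.T v * Z.U a)
      = Z.U (a⁻¹ * Z.ρ (u⁻¹ * v) a) * Z.T (u⁻¹ * v) := fun a => by
    rw [map_mul Z.U, Z.conj, map_mul Z.T, map_inv, map_inv]; group
  simp only [h1]
  rw [(ortho_of_fpf (Z.ρ (u⁻¹ * v)) fun x hx => (Z.fpf _ _ hx).resolve_left h).2.sum_comp
    fun y => ind (Z.U y * Z.T (u⁻¹ * v) = Z.U b * Z.T t), ← sum_ind_and b]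
  exact sum_congr rfl fun y _ => ind_congr ⟨Z.injH, fun h => by rw [h.1, h.2]⟩

theorem K_W (E : Multiset (Sym2 K)) (hE : W E 1 = 0) (b : Q) (t : K) :
    ∑ a, W (E.map (Sym2.map fun u => Z.T u * Z.U a)) (Z.U b * Z.T t) = W E t := by
  induction E using Multiset.induction_on with
  | empty => simp
  | cons e E ih =>
    rw [W_cons] at hE
    simp only [Multiset.map_cons, W_cons, sum_add_distrib]
    rw [ih (by omega)]
    congr 1
    induction e using Sym2.ind with
    | _ u v =>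
      have h : u⁻¹ * v ≠ 1 := fun h => by
        rw [wt_mk, ind_pos h] at hE
        omega
      have h2 : (Z.U b * Z.T t)⁻¹ = Z.U (Z.ρ t⁻¹ b⁻¹) * Z.T t⁻¹ := by
        rw [← T_U, map_inv, map_inv, mul_inv_rev]
      simp only [Sym2.map_mk, wt_mk, sum_add_distrib, h2]
      rw [Z.K_dir h, Z.K_dir h]

omit [Fintype Q] in
theorem K_W_not (E : Multiset (Sym2 K)) (a : Q) {z : G} (hz : z ∉ Z.ι.range) :
    W (E.map (Sym2.map fun u => Z.T u * Z.U a)) z = 0 := by
  induction E using Multiset.induction_on with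
  | empty => simp
  | cons e E ih =>
    rw [Multiset.map_cons, W_cons, ih]
    induction e using Sym2.ind with
    | _ u v =>
      have h : (Z.T u * Z.U a)⁻¹ * (Z.T v * Z.U a) ∈ Z.ι.range :=
        mul_mem (inv_mem (mul_mem (Z.T_mem u) (Z.U_mem a))) (mul_mem (Z.T_mem v) (Z.U_mem a))
      have h1 : ¬ (Z.T u * Z.U a)⁻¹ * (Z.T v * Z.U a) = z := fun h2 => hz (h2 ▸ h)
      have h2 : ¬ (Z.T u * Z.U a)⁻¹ * (Z.T v * Z.U a) = z⁻¹ :=
        fun h2 => hz (inv_mem_iff.1 (h2 ▸ h))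
      rw [Sym2.map_mk, wt_mk, ind_neg h1, ind_neg h2]

theorem K_C (V : Multiset K) (b : Q) (t : K) :
    ∑ a, C (V.map fun u => Z.T u * Z.U a) (Z.U b * Z.T t) = C V t := by
  induction V using Multiset.induction_on with
  | empty => simp
  | cons u V ih =>
    simp only [Multiset.map_cons, C_cons, sum_add_distrib]
    rw [ih]
    congr 1
    simp only [T_U]
    rw [(Z.ρ u).bijective.sum_comp fun y => ind (Z.U y * Z.T u = Z.U b * Z.T t), ← sum_ind_and b]
    exact sum_congr rfl fun y _ => ind_congr ⟨Z.injH, fun h => by rw [h.1, h.2]⟩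

variable [Nontrivial Q] [Finite K]

theorem odd_walk {γ : K} {k d : ℕ} (hγ : orderOf γ = k) (hk : Nat.card K = k)
    (hq : Fintype.card Q = k * d + 1) (hodd : Odd (Fintype.card Q)) :
    ∃ (t0 : K) (r : ℕ → G) (τ : ℕ → K) (f g X : ℕ → Q) (ε : ℕ → K), r 0 = Z.T t0 ∧
      (∀ n, r (n + 1) = Z.el (X n) (ε n) 1) ∧
      (∀ y t, ∑ n ∈ range (k * Fintype.card Q), ind (X n = y ∧ ε n = t) = 1) ∧
      (∀ n, n < k * Fintype.card Q → (r n)⁻¹ * r (n + 1) = Z.el (f n) (τ n) (g n)) ∧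
      ∀ t, ∑ n ∈ range (k * Fintype.card Q), ind (τ n = t) = Fintype.card Q := by
  obtain ⟨F, c, hc⟩ := Z.exists_edge_col
  obtain ⟨x, hx⟩ := exists_enum Q
  have h1q : 1 < Fintype.card Q := Fintype.one_lt_card
  have hxc := sum_ind_inj' x _ (Nat.card_eq_fintype_card (α := Q)).symm hx
  generalize Fintype.card Q = q at *
  have hq0 : 0 < q := by omega
  obtain ⟨p, hp⟩ := hodd
  let κ : ℕ → K := fun i => γ ^ (i + 1) * (c ((x i)⁻¹ * x (i + 1)))⁻¹
  obtain ⟨b, hb⟩ := sg_even κ p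
  let e : ℕ → ℕ := fun j => j / 2 + j % 2 * ((k + 1) / 2)
  have he1 : ∀ j, e j + e (j + 1) = j + (k + 1) / 2 := fun j => by
    rcases Nat.mod_two_eq_zero_or_one j with h | h
    · have h2 : (j + 1) % 2 = 1 := by omega
      simp only [e, h, h2]; omega
    · have h2 : (j + 1) % 2 = 0 := by omega
      simp only [e, h, h2]; omega
  have he2 : ∀ j, j < k → e j < k := fun j hj => by
    rcases Nat.mod_two_eq_zero_or_one j with h | h <;> simp only [e, h] <;> omega
  have he3 : ∀ i j, i < k → j < k → e i = e j → i = j := fun i j hi hj => by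
    rcases Nat.mod_two_eq_zero_or_one j with h | h <;>
      rcases Nat.mod_two_eq_zero_or_one i with h' | h' <;> simp only [e, h, h'] <;> omega
  let m0 : K := b * c ((x (2 * p))⁻¹ * x 0) * γ ^ ((k + 1) / 2) * γ⁻¹
  let r : ℕ → G := fun n => match n with
    | 0 => Z.T m0⁻¹
    | n + 1 => Z.el (x (n % q)) (sg κ (n % q) (γ ^ e (n / q))) 1
  let τ : ℕ → K := fun n => if n % q = 0 then m0 * γ ^ (n / q) else γ ^ (n % q)
  have hr : ∀ n, ∃ f g, (r n)⁻¹ * r (n + 1) = Z.el f (τ n) g := by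
    intro n
    cases n with
    | zero =>
      refine ⟨Z.ρ m0 (x 0), 1, ?_⟩
      simp only [r, τ, e, Nat.zero_mod, Nat.zero_div, sg, el, if_true, pow_zero, map_inv, inv_inv,
        Z.conj, zero_mul, add_zero, map_one, mul_one]
      group
    | succ m =>
      have hm := Nat.mod_lt m hq0
      rcases succ_div_mod hq0 m with ⟨h1, h2, h3⟩ | ⟨h1, h3⟩
      · have h4 : m % q = 2 * p := by omega
        obtain ⟨g, hg⟩ := hc (x (2 * p)) (x 0) (sg κ (2 * p) (γ ^ e (m / q))) (γ ^ e (m / q + 1))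
          fun h => by have := hx _ _ (by omega) hq0 h; omega
        refine ⟨Z.ρ (b * γ ^ e (m / q)) (F ((x (2 * p))⁻¹ * x 0)), g, ?_⟩
        simp only [r, τ, h1, h3, h4, sg, if_true]
        rw [hg, hb]
        congr 1
        have h6 : γ ^ e (m / q) * γ ^ e (m / q + 1)
            = γ ^ ((k + 1) / 2) * γ⁻¹ * γ ^ (m / q + 1) := by
          rw [← pow_add, he1, pow_add, pow_succ' γ (m / q), mul_assoc, inv_mul_cancel_left,
            mul_comm]
        rw [mul_right_comm b, mul_assoc _ (γ ^ _), h6]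
        simp only [m0, mul_assoc]
      · have h5 := Nat.mod_lt (m + 1) hq0
        obtain ⟨g, hg⟩ := hc (x (m % q)) (x (m % q + 1)) (sg κ (m % q) (γ ^ e (m / q)))
          (sg κ (m % q + 1) (γ ^ e (m / q)))
          fun h => by have := hx _ _ hm (by omega) h; omega
        refine ⟨Z.ρ (sg κ (m % q) (γ ^ e (m / q))) (F ((x (m % q))⁻¹ * x (m % q + 1))), g, ?_⟩
        simp only [r, τ, h1, h3, Nat.succ_ne_zero, if_false]
        rw [hg]
        congr 1
        simp only [sg, κ, mul_comm, mul_left_comm, mul_assoc, mul_inv_cancel,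
          one_mul]
  choose f g hr using hr
  refine ⟨m0⁻¹, r, τ, f, g, fun n => x (n % q), fun n => sg κ (n % q) (γ ^ e (n / q)), rfl,
    fun _ => rfl, grid_count hq0 x (fun j i => sg κ i (γ ^ e j)) hxc fun i t => ?_,
    fun n _ => hr n, fun t => ?_⟩
  · exact sum_ind_inj' (fun j => sg κ i (γ ^ e j)) k hk.symm (fun j j' hj hj' h =>
      he3 _ _ hj hj' (pow_inj hγ (he2 _ hj) (he2 _ hj') (sg_inj κ i h))) t
  · rw [sum_div_mod (fun j i => ind ((if i = 0 then m0 * γ ^ j else γ ^ i) = t)) hq0]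
    conv_lhs => rw [hq]
    simp only [sum_range_succ', Nat.succ_ne_zero, if_false, if_true, count_pow_mul hγ hk,
      sum_add_distrib, count_pow hγ hk, sum_const, card_range, smul_eq_mul]
    exact hq.symm

include Z in
theorem ter_odd {γ : K} {k d : ℕ} (hγ : orderOf γ = k) (hk : Nat.card K = k)
    (hq : Fintype.card Q = k * d + 1) (hodd : Odd (Fintype.card Q)) : Ter G := by
  obtain ⟨t0, r, τ, f, g, X, ε, hr0, hr1, hX, hr, hτ⟩ := Z.odd_walk hγ hk hq hodd
  obtain ⟨c, -, hc⟩ := exists_labels τ _ hτ (1 : Q)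
  have hk0 : 0 < k := hk ▸ Nat.card_pos
  obtain ⟨M, hM⟩ : ∃ M, k * Fintype.card Q = M + 1 :=
    ⟨_, (Nat.succ_pred_eq_of_pos (Nat.mul_pos hk0 Fintype.card_pos)).symm⟩
  rw [hM] at hX hr hc
  obtain ⟨VK', EK', ta, tb, hpK', hVK', hEK'⟩ := ter_cyc hγ hk
  have hpK := (hpK'.map fun u => t0 * tb⁻¹ * u).congr rfl rfl rfl (inv_mul_cancel_right t0 tb)
  have hVK : ∀ t, C (VK'.map fun u => t0 * tb⁻¹ * u) t = 1 := fun t => by rw [C_map_mul, hVK']
  have hEK : ∀ t, W (EK'.map (Sym2.map fun u => t0 * tb⁻¹ * u)) t = 2 * ind (t ≠ 1) :=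
    fun t => by rw [W_map_mul, hEK']
  generalize VK'.map (fun u => t0 * tb⁻¹ * u) = VK at hpK hVK
  generalize EK'.map (Sym2.map fun u => t0 * tb⁻¹ * u) = EK at hpK hEK
  obtain ⟨V, E0, E1, a0, b0, hp, hV, h0, h1⟩ :=
    st_odd _ Q (Nat.card_eq_fintype_card (α := Q)) hodd
  have hW := Z.walk_W (fun _ => 1) hr hc
  have hC := Z.walk_C (fun n => Z.Φ_bij f g c (fun _ => 1) (n + 1)) hX
  set Φ := Z.Φ f g c (fun _ => 1) with hΦ
  have hw := hp.weave _ _ _ _ fun a => (hpK.map fun u => Z.T u * Z.U a).append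
    (path_seq (fun n => r (n + 1) * Z.U (Φ (n + 1) a)) M)
  rw [eq_univ_of_C hV] at hw
  have hB : (fun a => r (M + 1) * Z.U (Φ (M + 1) a))
      = fun a => r (M + 1) * Z.U (Φ (M + 1) 1) * Z.U a := by
    funext a
    have := Z.Φ_mul f g c (fun _ => 1) (M + 1) 1 a
    rw [one_mul, prod_const_one, map_one, MulAut.one_apply] at this
    rw [hΦ, this, map_mul, mul_assoc]
  refine ⟨_, _, _, _, hw, fun z => ?_, fun z => ?_⟩
  · rw [← Finset.sum_eq_multiset_sum, C_sum]
    simp only [C_add, C_sum, C_singleton, sum_add_distrib, hr1]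
    rw [hC]
    by_cases hz : z ∈ Z.ι.range
    · rw [ind_neg (not_not.2 hz)]
      obtain ⟨b, t, rfl⟩ := Z.mem_B.1 hz
      rw [Z.K_C, hVK]
    · have h3 : ∀ a u, Z.T u * Z.U a ≠ z := fun a u h =>
        hz (h ▸ mul_mem (Z.T_mem u) (Z.U_mem a))
      rw [ind_pos hz, sum_eq_zero fun a _ => C_map_not VK (h3 a)]
  · have hW' := hW z
    simp only [sum_range_succ', sum_add_distrib, hr0] at hW'
    rw [← Finset.sum_eq_multiset_sum, W_add, W_add, W_sum, hB, Z.W_U, Z.W_U]
    simp only [W_add, W_cons, W_sum, sum_add_distrib, ← Multiset.cons_zero, W_zero, add_zero]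
    have h3 : ∀ a, Φ 0 a = a := fun _ => rfl
    simp only [h3] at hW'
    by_cases hz : z ∈ Z.ι.range
    · rw [ind_neg (not_not.2 hz)] at hW'
      obtain ⟨b, t, rfl⟩ := Z.mem_B.1 hz
      rw [Z.K_W _ (by rw [hEK, ind_neg (by simp)]), hEK, Z.W_U_eq h0, Z.W_U_eq h1]
      have h4 : ind (Z.U b * Z.T t ≠ 1) = ind (t ≠ 1) + ind (t = 1 ∧ b ≠ 1) := by
        by_cases ht : t = 1
        · rw [ind_neg (not_not.2 ht), zero_add, ht, map_one, mul_one]
          exact ind_congr (by simp [(map_eq_one_iff _ Z.injU)])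
        · rw [ind_pos ht, ind_neg (p := t = 1 ∧ b ≠ 1) fun h => ht h.1, ind_pos fun h =>
            ht (Z.injH (a' := 1) (t' := 1) (by rw [h]; simp)).2]
      omega
    · rw [ind_pos hz] at hW'
      have h4 : ∀ a, Z.U a ≠ z := fun a h => hz (h ▸ Z.U_mem a)
      rw [sum_eq_zero fun a _ => Z.K_W_not EK a hz, W_map_not _ E0 h4, W_map_not _ E1 h4,
        ind_pos (p := z ≠ 1) fun h => hz (h ▸ one_mem _)]
      omega

end ZD

end Pool.Agent.Lib.MP_0becda_co.PSL
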