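import Pool.Agent.Lib.MP_0becda_co.Solv

/-!
Groups with a split rank one decomposition `G = U T ∪ U T w U`; lifting walks along `U`.
-/

namespace Pool.Agent.Lib.MP_0becda_co.PSL

open Finset

/-- Rank one data with commutative root group and commutative torus inverted by `w`. -/
structure ZD (G Q K : Type) [Group G] [CommGroup Q] [CommGroup K] where
  U : Q →* G
  T : K →* G
  w : G
  ρ : K →* MulAut Q
  conj : ∀ t a, U (ρ t a) = T t * U a * (T t)⁻¹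
  ww : w * w = 1
  wT : ∀ t, w * T t = (T t)⁻¹ * w
  cover : ∀ g, (∃ a t, g = U a * T t) ∨ ∃ a t b, g = U a * T t * w * U b
  injU : Function.Injective U
  injT : Function.Injective T
  key : ∀ a b t, w * U a * w = U b * T t → a = 1
  fpf : ∀ t a, ρ t a = a → t = 1 ∨ a = 1

theorem ind_and (p q : Prop) : ind (p ∧ q) = ind p * ind q := by
  by_cases hp : p
  · rw [ind_pos hp, one_mul]; exact ind_congr (by simp [hp])
  · rw [ind_neg hp, zero_mul, ind_neg fun h => hp h.1]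

theorem sum_ind_and {X : Type} [Fintype X] (x : X) (p : Prop) : ∑ y, ind (y = x ∧ p) = ind p := by
  simp only [ind_and]
  rw [← sum_mul, sum_ind_eq, one_mul]

theorem sum_div_mod (F : ℕ → ℕ → ℕ) {q : ℕ} (hq : 0 < q) (k : ℕ) :
    ∑ n ∈ range (k * q), F (n / q) (n % q) = ∑ j ∈ range k, ∑ i ∈ range q, F j i := by
  induction k with
  | zero => simp
  | succ k ih =>
    rw [Nat.succ_mul, sum_range_add, ih, sum_range_succ]
    congr 1
    refine sum_congr rfl fun i hi => ?_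
    have hi' := mem_range.1 hi
    rw [mul_comm, Nat.mul_add_div hq, Nat.mul_add_mod, Nat.div_eq_of_lt hi', Nat.mod_eq_of_lt hi',
      add_zero]

theorem prod_ite_ind {K : Type} [CommGroup K] (γ : K) (p : ℕ → Prop) [DecidablePred p] (n : ℕ) :
    ∏ j ∈ range n, (if p j then γ else 1) = γ ^ ∑ j ∈ range n, ind (p j) := by
  induction n with
  | zero => simp
  | succ n ih =>
    rw [prod_range_succ, sum_range_succ, ih, pow_add]
    by_cases h : p n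
    · rw [if_pos h, ind_pos h, pow_one]
    · rw [if_neg h, ind_neg h, pow_zero]

theorem path_seq {X : Type} (v : ℕ → X) (n : ℕ) :
    Path (∑ j ∈ range (n + 1), ({v j} : Multiset X))
      (∑ j ∈ range n, ({s(v j, v (j + 1))} : Multiset (Sym2 X))) (v 0) (v n) := by
  induction n with
  | zero => simpa using Path.single (v 0)
  | succ n ih =>
    refine (ih.append (Path.single (v (n + 1)))).congr ?_ ?_ rfl rfl
    · rw [sum_range_succ _ (n + 1)]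
    · rw [sum_range_succ _ n]; simp

theorem exists_labels {Q K : Type} [CommGroup Q] [Fintype Q] (τ : ℕ → K) (N : ℕ)
    (h : ∀ t, ∑ n ∈ range N, ind (τ n = t) = Fintype.card Q) (a0 : Q) :
    ∃ c : ℕ → Q, c 0 = a0 ∧ ∀ t a, ∑ n ∈ range N, ind (τ n = t ∧ c n = a) = 1 := by
  classical
  have hc : ∀ t, Fintype.card {n // n ∈ (range N).filter fun n => τ n = t} = Fintype.card Q := by
    intro t
    rw [Fintype.card_coe, card_filter, ← h t]
    refine sum_congr rfl fun n _ => ?_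
    by_cases h1 : τ n = t
    · rw [if_pos h1, ind_pos h1]
    · rw [if_neg h1, ind_neg h1]
  let e := fun t => Fintype.equivOfCardEq (hc t)
  let c : ℕ → Q := fun n =>
    if hn : n < N then e (τ n) ⟨n, mem_filter.2 ⟨mem_range.2 hn, rfl⟩⟩ else 1
  have hce : ∀ t n (hn : n ∈ (range N).filter fun n => τ n = t), c n = e t ⟨n, hn⟩ := by
    intro t n hn
    obtain ⟨h1, rfl⟩ := mem_filter.1 hn
    exact dif_pos (mem_range.1 h1)
  refine ⟨fun n => c n * ((c 0)⁻¹ * a0), by simp, fun t a => ?_⟩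
  obtain ⟨⟨m, hm⟩, hm2⟩ := (e t).surjective (a * ((c 0)⁻¹ * a0)⁻¹)
  rw [sum_eq_single m (fun n hn hnm => ind_neg fun h1 => hnm ?_)
    (fun h1 => absurd (mem_filter.1 hm).1 h1)]
  · refine ind_pos ⟨(mem_filter.1 hm).2, ?_⟩
    show c m * _ = a
    rw [hce t m hm, hm2, inv_mul_cancel_right]
  · have hn' : n ∈ (range N).filter fun n => τ n = t := mem_filter.2 ⟨hn, h1.1⟩
    have h3 : c n * ((c 0)⁻¹ * a0) = a := h1.2
    have h2 : e t ⟨n, hn'⟩ = e t ⟨m, hm⟩ := by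
      rw [← hce t n hn', hm2, ← h3, mul_inv_cancel_right]
    exact congrArg Subtype.val ((e t).injective h2)

namespace ZD

variable {G Q K : Type} [Group G] [CommGroup Q] [CommGroup K] (Z : ZD G Q K)

/-- the Borel subgroup as an image -/
def ι : Q ⋊[Z.ρ] K →* G := SemidirectProduct.lift Z.U Z.T fun t => by
  ext a
  simp [Z.conj]

theorem ι_apply (x : Q ⋊[Z.ρ] K) : Z.ι x = Z.U x.left * Z.T x.right := rfl

theorem mem_B {z : G} : z ∈ Z.ι.range ↔ ∃ a t, z = Z.U a * Z.T t :=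
  ⟨fun ⟨x, hx⟩ => ⟨x.left, x.right, hx.symm⟩, fun ⟨a, t, h⟩ => ⟨⟨a, t⟩, h.symm⟩⟩

theorem U_mem (a : Q) : Z.U a ∈ Z.ι.range := Z.mem_B.2 ⟨a, 1, by simp⟩

theorem T_mem (t : K) : Z.T t ∈ Z.ι.range := Z.mem_B.2 ⟨1, t, by simp⟩

theorem injH {a a' : Q} {t t' : K} (h : Z.U a * Z.T t = Z.U a' * Z.T t') : a = a' ∧ t = t' := by
  have h1 : Z.U (a'⁻¹ * a) = Z.T (t' * t⁻¹) := by
    rw [map_mul, map_mul, map_inv, map_inv, inv_mul_eq_iff_eq_mul, ← mul_assoc, ← h,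
      mul_inv_cancel_right]
  have h2 : Z.ρ (t' * t⁻¹) (a'⁻¹ * a) = a'⁻¹ * a := Z.injU (by
    rw [Z.conj, h1, mul_inv_cancel_right])
  have h3 : a'⁻¹ * a = 1 := (Z.fpf _ _ h2).elim
    (fun h4 => Z.injU (by rw [h1, h4, map_one, map_one])) id
  have h4 : a = a' := (inv_mul_eq_one.1 h3).symm
  subst h4
  exact ⟨rfl, Z.injT (mul_left_cancel h)⟩

theorem ι_inj : Function.Injective Z.ι := fun x y h => by
  obtain ⟨h1, h2⟩ := Z.injH h
  exact SemidirectProduct.ext h1 h2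

/-- elements of the big cell -/
def el (a : Q) (t : K) (b : Q) : G := Z.U a * Z.T t * Z.w * Z.U b

theorem w_inv : Z.w⁻¹ = Z.w := inv_eq_of_mul_eq_one_right Z.ww

theorem el_not_mem [Nontrivial Q] (a : Q) (t : K) (b : Q) : Z.el a t b ∉ Z.ι.range := by
  intro h
  have hw : Z.w ∈ Z.ι.range := by
    have := mul_mem (mul_mem (inv_mem (mul_mem (Z.U_mem a) (Z.T_mem t))) h) (inv_mem (Z.U_mem b))
    rwa [el, show (Z.U a * Z.T t)⁻¹ * (Z.U a * Z.T t * Z.w * Z.U b) * (Z.U b)⁻¹ = Z.w by group]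
      at this
  obtain ⟨x, hx⟩ := exists_ne (1 : Q)
  obtain ⟨c, s, h2⟩ := Z.mem_B.1 (mul_mem (mul_mem hw (Z.U_mem x)) hw)
  exact hx (Z.key _ _ _ h2)

theorem el_inj {a a' b b' : Q} {t t' : K} (h : Z.el a t b = Z.el a' t' b') :
    a = a' ∧ t = t' ∧ b = b' := by
  have h1 : Z.w * Z.U (b' * b⁻¹) * Z.w = (Z.U a' * Z.T t')⁻¹ * (Z.U a * Z.T t) := by
    have h2 : Z.U a * Z.T t = Z.U a' * Z.T t' * Z.w * Z.U b' * (Z.U b)⁻¹ * Z.w⁻¹ := by
      rw [el, el] at h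
      rw [← h]; group
    rw [h2, Z.w_inv, map_mul, map_inv]; group
  obtain ⟨c, s, h2⟩ := Z.mem_B.1 (mul_mem (inv_mem (mul_mem (Z.U_mem a') (Z.T_mem t')))
    (mul_mem (Z.U_mem a) (Z.T_mem t)))
  have h3 : b' = b := mul_inv_eq_one.1 (Z.key _ _ _ (h1.trans h2))
  subst h3
  obtain ⟨h4, h5⟩ := Z.injH (mul_right_cancel (mul_right_cancel h))
  exact ⟨h4, h5, rfl⟩

theorem exists_el {z : G} (hz : z ∉ Z.ι.range) : ∃ a t b, z = Z.el a t b :=
  (Z.cover z).resolve_left fun h => hz (Z.mem_B.2 h)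

theorem U_el_U (x y a b : Q) (t : K) :
    (Z.U x)⁻¹ * Z.el a t b * Z.U y = Z.el (x⁻¹ * a) t (b * y) := by
  simp only [el, map_mul, map_inv, mul_assoc]

theorem exists_edge_col : ∃ F : Q → Q, ∃ c : Q → K, ∀ x y ε δ, x ≠ y → ∃ g,
    (Z.el x ε 1)⁻¹ * Z.el y δ 1 = Z.el (Z.ρ ε (F (x⁻¹ * y))) (ε * c (x⁻¹ * y) * δ) g := by
  have h : ∀ z : Q, ∃ f c g, z ≠ 1 → Z.w * Z.U z * Z.w = Z.el f c g := by
    intro z
    by_cases hz : z = 1
    · exact ⟨1, 1, 1, fun h => absurd hz h⟩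
    · obtain ⟨f, c, g, h⟩ := Z.exists_el (z := Z.w * Z.U z * Z.w) fun h => by
        obtain ⟨c, s, h2⟩ := Z.mem_B.1 h
        exact hz (Z.key _ _ _ h2)
      exact ⟨f, c, g, fun _ => h⟩
  choose f c g h using h
  refine ⟨f, c, fun x y ε δ hxy => ⟨Z.ρ δ (g (x⁻¹ * y)), ?_⟩⟩
  have h1 := h (x⁻¹ * y) (fun h2 => hxy (inv_mul_eq_one.1 h2))
  have h2 : Z.w * (Z.T ε)⁻¹ = Z.T ε * Z.w := by
    have := Z.wT ε⁻¹
    rwa [map_inv, inv_inv] at this
  have h3 : Z.T δ * Z.w = Z.w * (Z.T δ)⁻¹ := by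
    have := Z.wT δ⁻¹
    rw [map_inv, inv_inv] at this
    exact this.symm
  calc (Z.el x ε 1)⁻¹ * Z.el y δ 1
      = (Z.w⁻¹ * (Z.T ε)⁻¹) * ((Z.U x)⁻¹ * Z.U y) * (Z.T δ * Z.w) := by
        simp only [el, map_one]; group
    _ = Z.T ε * (Z.w * Z.U (x⁻¹ * y) * Z.w) * (Z.T δ)⁻¹ := by
        rw [Z.w_inv, h2, h3, map_mul, map_inv]; group
    _ = Z.T ε * Z.U (f (x⁻¹ * y)) * Z.T (c (x⁻¹ * y)) * (Z.w * (Z.T δ)⁻¹) * Z.T δ *
          Z.U (g (x⁻¹ * y)) * (Z.T δ)⁻¹ := by rw [h1, el]; group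
    _ = _ := by rw [← h3, el, Z.conj, Z.conj, map_mul, map_mul]; group

/-- fibre coordinates along a walk -/
def Φ (f g c : ℕ → Q) (e : ℕ → K) : ℕ → Q → Q
  | 0, a => a
  | n + 1, a => (g n)⁻¹ * Z.ρ (e n) ((f n)⁻¹ * Φ f g c e n a) * c n

theorem Φ_mul (f g c : ℕ → Q) (e : ℕ → K) (n : ℕ) (a b : Q) :
    Z.Φ f g c e n (a * b) = Z.Φ f g c e n a * Z.ρ (∏ j ∈ range n, e j) b := by
  induction n with
  | zero => simp [Φ]
  | succ n ih =>
    rw [Φ, Φ, ih, ← mul_assoc, map_mul, prod_range_succ, mul_comm _ (e n), map_mul Z.ρ,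
      MulAut.mul_apply]
    simp only [mul_comm, mul_left_comm]

theorem Φ_bij (f g c : ℕ → Q) (e : ℕ → K) (n : ℕ) : Function.Bijective (Z.Φ f g c e n) := by
  have : Z.Φ f g c e n = fun b => Z.Φ f g c e n 1 * Z.ρ (∏ j ∈ range n, e j) b := by
    funext b
    rw [← Φ_mul, one_mul]
  rw [this]
  exact (Group.mulLeft_bijective _).comp (Z.ρ _).bijective

variable [Fintype Q] [Nontrivial Q]

theorem walk_dir {N : ℕ} {r : ℕ → G} {τ : ℕ → K} {f g c : ℕ → Q} (E : K → K)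
    (hr : ∀ n, n < N → (r n)⁻¹ * r (n + 1) = Z.el (f n) (τ n) (g n))
    (hc : ∀ t a, ∑ n ∈ range N, ind (τ n = t ∧ c n = a) = 1) (z : G) :
    ∑ a, ∑ n ∈ range N, ind ((r n * Z.U (Z.Φ f g c (fun n => E (τ n)) n a))⁻¹ *
      (r (n + 1) * Z.U (Z.Φ f g c (fun n => E (τ n)) (n + 1) a)) = z) = ind (z ∉ Z.ι.range) := by
  have h1 : ∀ n, n < N → ∀ a, (r n * Z.U (Z.Φ f g c (fun n => E (τ n)) n a))⁻¹ *
      (r (n + 1) * Z.U (Z.Φ f g c (fun n => E (τ n)) (n + 1) a))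
      = Z.el ((Z.Φ f g c (fun n => E (τ n)) n a)⁻¹ * f n) (τ n)
        (Z.ρ (E (τ n)) ((f n)⁻¹ * Z.Φ f g c (fun n => E (τ n)) n a) * c n) := by
    intro n hn a
    rw [mul_inv_rev, mul_assoc, ← mul_assoc (r n)⁻¹, hr n hn, ← mul_assoc, U_el_U, Φ, mul_assoc,
      mul_inv_cancel_left]
  by_cases hz : z ∈ Z.ι.range
  · rw [ind_neg (not_not.2 hz)]
    refine sum_eq_zero fun a _ => sum_eq_zero fun n hn => ind_neg fun h => ?_
    rw [h1 n (mem_range.1 hn)] at h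
    exact Z.el_not_mem _ _ _ (h ▸ hz)
  · obtain ⟨a1, t, a2, rfl⟩ := Z.exists_el hz
    rw [ind_pos hz, sum_comm]
    refine Eq.trans (sum_congr rfl fun n hn => ?_) (hc t ((Z.ρ (E t) a1⁻¹)⁻¹ * a2))
    simp only [h1 n (mem_range.1 hn)]
    rw [(Z.Φ_bij f g c (fun n => E (τ n)) n).sum_comp fun y => ind (Z.el (y⁻¹ * f n) (τ n)
      (Z.ρ (E (τ n)) ((f n)⁻¹ * y) * c n) = Z.el a1 t a2), ← sum_ind_and (f n * a1⁻¹)]
    refine sum_congr rfl fun y _ => ind_congr ⟨fun h => ?_, ?_⟩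
    · obtain ⟨h2, rfl, h4⟩ := Z.el_inj h
      refine ⟨by rw [← h2]; simp, rfl, ?_⟩
      rw [← h4, ← h2, mul_inv_rev, inv_inv, inv_mul_cancel_left]
    · rintro ⟨rfl, rfl, h4⟩
      rw [h4, inv_mul_cancel_left, mul_inv_cancel_left, mul_inv_rev, inv_inv, inv_mul_cancel_right]

theorem walk_W {N : ℕ} {r : ℕ → G} {τ : ℕ → K} {f g c : ℕ → Q} (E : K → K)
    (hr : ∀ n, n < N → (r n)⁻¹ * r (n + 1) = Z.el (f n) (τ n) (g n))
    (hc : ∀ t a, ∑ n ∈ range N, ind (τ n = t ∧ c n = a) = 1) (z : G) :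
    ∑ a, ∑ n ∈ range N, wt s(r n * Z.U (Z.Φ f g c (fun n => E (τ n)) n a),
      r (n + 1) * Z.U (Z.Φ f g c (fun n => E (τ n)) (n + 1) a)) z = 2 * ind (z ∉ Z.ι.range) := by
  simp only [wt_mk, sum_add_distrib]
  rw [Z.walk_dir E hr hc, Z.walk_dir E hr hc, ind_congr (inv_mem_iff (x := z)).not, two_mul]

theorem walk_C {N : ℕ} {X : ℕ → Q} {ε : ℕ → K} {ψ : ℕ → Q → Q}
    (hψ : ∀ n, Function.Bijective (ψ n))
    (h : ∀ y t, ∑ n ∈ range N, ind (X n = y ∧ ε n = t) = 1) (z : G) :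
    ∑ a, ∑ n ∈ range N, ind (Z.el (X n) (ε n) 1 * Z.U (ψ n a) = z) = ind (z ∉ Z.ι.range) := by
  have h1 : ∀ n b, Z.el (X n) (ε n) 1 * Z.U b = Z.el (X n) (ε n) b := fun n b => by simp [el]
  simp only [h1]
  by_cases hz : z ∈ Z.ι.range
  · rw [ind_neg (not_not.2 hz)]
    exact sum_eq_zero fun a _ => sum_eq_zero fun n _ => ind_neg fun h =>
      Z.el_not_mem _ _ _ (h ▸ hz)
  · obtain ⟨a1, t, a2, rfl⟩ := Z.exists_el hz
    rw [ind_pos hz, sum_comm, ← h a1 t]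
    refine sum_congr rfl fun n _ => ?_
    rw [(hψ n).sum_comp fun y => ind (Z.el (X n) (ε n) y = Z.el a1 t a2), ← sum_ind_and a2]
    refine sum_congr rfl fun y _ => ind_congr ⟨fun h => ?_, ?_⟩
    · obtain ⟨h2, h3, h4⟩ := Z.el_inj h
      exact ⟨h4, h2, h3⟩
    · rintro ⟨rfl, rfl, rfl⟩
      rfl

end ZD

theorem grid_count {Q K : Type} {q k : ℕ} (hq : 0 < q) (x : ℕ → Q) (e : ℕ → ℕ → K)
    (hx : ∀ y, ∑ i ∈ range q, ind (x i = y) = 1)
    (he : ∀ i t, ∑ j ∈ range k, ind (e j i = t) = 1) (y : Q) (t : K) :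
    ∑ n ∈ range (k * q), ind (x (n % q) = y ∧ e (n / q) (n % q) = t) = 1 := by
  rw [sum_div_mod (fun j i => ind (x i = y ∧ e j i = t)) hq, sum_comm, ← hx y]
  refine sum_congr rfl fun i _ => ?_
  simp only [ind_and]
  rw [← mul_sum, he, mul_one]

theorem exists_enum (Q : Type) [Fintype Q] [Nonempty Q] : ∃ x : ℕ → Q,
    ∀ i j, i < Fintype.card Q → j < Fintype.card Q → x i = x j → i = j := by
  classical
  refine ⟨fun i => if h : i < Fintype.card Q then (Fintype.equivFin Q).symm ⟨i, h⟩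
    else Classical.arbitrary Q, fun i j hi hj h => ?_⟩
  simp only [dif_pos hi, dif_pos hj] at h
  exact congrArg Fin.val ((Fintype.equivFin Q).symm.injective h)

end Pool.Agent.Lib.MP_0becda_co.PSL
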