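import Pool.Agent.Lib.MP_0becda_co.PSL.Odd

/-!
Rank one groups whose torus has odd order and is transitive on the nontrivial root elements.
-/

namespace Pool.Agent.Lib.MP_0becda_co.PSL

open Finset

theorem ter_glue {G : Type} [Group G] {P : Subgroup G} (hP : Ter P) {κ h s : G} (hκ : κ ∈ P)
    (hκ1 : κ ≠ 1) (hh : h ∈ P) {V1 V2 : Multiset G} {E1 E2 : Multiset (Sym2 G)}
    (c1 : Cyc V1 E1) (e1 : s(h * s, h * s * s) ∈ E1) (c2 : Cyc V2 E2)
    (e2 : s(h * s * κ, h * s * s * κ) ∈ E2) (hV : ∀ g, C V1 g + C V2 g = ind (g ∉ P))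
    (hE : ∀ g, W E1 g + W E2 g = 2 * ind (g ∉ P)) : Ter G := by
  obtain ⟨V, E, a, b, hp, -, hVP, hEP⟩ := hP.sub
  obtain ⟨x, hx⟩ := exists_edge (E := E) (g := κ) (by rw [hEP, ind_pos ⟨hκ, hκ1⟩]; omega)
  obtain ⟨F1, p1, rfl⟩ := c1.cut e1
  obtain ⟨F2, p2, rfl⟩ := c2.cut e2
  have key : ∀ VA EA VB EB a b, Path VA EA a x → Path VB EB (x * κ) b → V = VA + VB →
      E = EA + s(x, x * κ) ::ₘ EB → Ter G := by
    intro VA EA VB EB a b pA pB h1 h2
    subst h1 h2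
    have hxP : x ∈ P := by
      have := C_pos_of_mem (Multiset.mem_add.2 (Or.inl pA.end_mem) : x ∈ VA + VB)
      by_contra h
      rw [hVP, ind_neg h] at this; omega
    have hy : (x * h⁻¹)⁻¹ ∈ P := inv_mem (mul_mem hxP (inv_mem hh))
    refine ⟨_, _, _, _, pA.append (((p1.append p2.reverse).map fun y => x * h⁻¹ * y).append pB),
      fun g => ?_, fun g => ?_⟩
    · have h1 := hVP g
      have h2 := hV ((x * h⁻¹)⁻¹ * g)
      rw [ind_congr (P.mul_mem_cancel_left hy).not] at h2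
      rw [C_add] at h1
      rw [C_add, C_add, C_map_mul, C_add]
      by_cases hg : g ∈ P
      · rw [ind_pos hg] at h1; rw [ind_neg (not_not.2 hg)] at h2; omega
      · rw [ind_neg hg] at h1; rw [ind_pos hg] at h2; omega
    · have h1 := hEP g
      have h2 := hE g
      have h3 : ind (g ∈ P ∧ g ≠ 1) + ind (g ∉ P) = ind (g ≠ 1) := by
        by_cases hg : g ∈ P
        · rw [ind_neg (not_not.2 hg), add_zero]; exact ind_congr (by simp [hg])
        · rw [ind_neg fun h => hg h.1, ind_pos hg,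
            ind_pos (show g ≠ 1 from fun h => hg (h ▸ P.one_mem))]
      rw [W_add, W_cons] at h1
      rw [W_cons, W_cons] at h2
      rw [W_add, W_cons, W_add, W_cons, W_map_mul, W_add, W_cons,
        wt_congr (u := x) (u' := h * s) (v' := h * s * s) (by group),
        wt_congr (u := h * s * s) (v := h * s * s * κ) (u' := x) (v' := x * κ) (by group),
        wt_congr' (u := x * h⁻¹ * (h * s * κ)) (v := x * κ) (u' := h * s * κ)
          (v' := h * s * s * κ) (by group)]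
      omega
  obtain ⟨VA, EA, VB, EB, u, w, h1, pA, pB, h2, h3⟩ := hp.split hx
  rcases Sym2.eq_iff.1 h1 with ⟨rfl, rfl⟩ | ⟨rfl, rfl⟩
  · exact key _ _ _ _ _ _ pA pB h2 h3
  · refine key _ _ _ _ _ _ pB.reverse pA.reverse (by rw [h2, add_comm]) ?_
    rw [h3]
    simp only [← Multiset.singleton_add]; abel

namespace ZD

variable {G Q K : Type} [Group G] [CommGroup Q] [CommGroup K] (Z : ZD G Q K)
variable [Fintype Q] [Nontrivial Q] [Finite K]

theorem even_walk {γ : K} {k : ℕ} (hγ : orderOf γ = k) (hk : Nat.card K = k) (hodd : Odd k) :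
    ∃ (X : ℕ → Q) (ε τ : ℕ → K) (f g : ℕ → Q),
      Z.el (X (k * Fintype.card Q)) (ε (k * Fintype.card Q)) 1 = Z.el (X 0) (ε 0) 1 ∧
      (∀ y t, ∑ n ∈ range (k * Fintype.card Q), ind (X n = y ∧ ε n = t) = 1) ∧
      (∀ n, (Z.el (X n) (ε n) 1)⁻¹ * Z.el (X (n + 1)) (ε (n + 1)) 1 = Z.el (f n) (τ n) (g n)) ∧
      ∀ t, ∑ n ∈ range (k * Fintype.card Q), ind (τ n = t) = Fintype.card Q := by
  obtain ⟨F, c, hc⟩ := Z.exists_edge_col
  obtain ⟨x, hx⟩ := exists_enum Q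
  have h1q : 1 < Fintype.card Q := Fintype.one_lt_card
  have hxc := sum_ind_inj' x _ (Nat.card_eq_fintype_card (α := Q)).symm hx
  generalize Fintype.card Q = q at *
  have hq0 : 0 < q := by omega
  have hne : ∀ n, x (n % q) ≠ x ((n + 1) % q) := fun n h => by
    have h1 := hx _ _ (Nat.mod_lt _ hq0) (Nat.mod_lt _ hq0) h
    rcases succ_div_mod hq0 n with ⟨h2, h3, -⟩ | ⟨h2, -⟩ <;> omega
  choose g hg using fun n => hc _ _ (γ ^ (n / q)) (γ ^ ((n + 1) / q)) (hne n)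
  refine ⟨fun n => x (n % q), fun n => γ ^ (n / q), _, _, g, ?_,
    grid_count hq0 x (fun j _ => γ ^ j) hxc fun i t => ?_, hg, fun t => ?_⟩
  · simp only [Nat.mul_mod_left, Nat.mul_div_cancel _ hq0, Nat.zero_mod, Nat.zero_div]
    rw [← hγ, pow_orderOf_eq_one, pow_zero]
  · simpa using count_pow hγ hk 1 t
  · have h1 : ∀ n, (n + 1) % q = (n % q + 1) % q := fun n => (Nat.mod_add_mod n q 1).symm
    have h2 : ∀ n, (n + 1) / q = n / q + (n % q + 1) / q := fun n => by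
      rcases succ_div_mod hq0 n with ⟨-, h3, h4⟩ | ⟨h3, h4⟩
      · rw [h4, h3, Nat.div_self hq0]
      · rw [h4, ← h3, Nat.div_eq_of_lt (Nat.mod_lt _ hq0), add_zero]
    rw [sum_congr rfl fun n _ => by rw [h1 n, h2 n]]
    rw [sum_div_mod (fun j i => ind (γ ^ j * c ((x i)⁻¹ * x ((i + 1) % q)) *
      γ ^ (j + (i + 1) / q) = t)) hq0, sum_comm]
    refine Eq.trans (sum_congr rfl fun i _ => ?_) (by rw [sum_const, card_range, smul_eq_mul,
      mul_one])
    refine sum_ind_inj' (fun j => γ ^ j * c ((x i)⁻¹ * x ((i + 1) % q)) * γ ^ (j + (i + 1) / q))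
      k hk.symm (fun j j' hj hj' h => pow_inj hγ hj hj' ?_) t
    simp only [pow_add, ← mul_assoc, mul_left_inj] at h
    rw [mul_right_comm, mul_right_comm (γ ^ j'), mul_left_inj] at h
    refine mul_inv_eq_one.1 (sq_eq_one_of_odd_card (hk ▸ hodd) _ ?_)
    rw [mul_mul_mul_comm, h, ← mul_inv, mul_inv_cancel]

include Z in
theorem ter_even [Finite G] {γ : K} {k : ℕ} (hγ : orderOf γ = k) (hk : Nat.card K = k)
    (hodd : Odd k) (hk1 : 1 < k) (hq : Fintype.card Q = k + 1)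
    (htr : ∀ a b : Q, a ≠ 1 → b ≠ 1 → ∃ t, Z.ρ t a = b) : Ter G := by
  classical
  obtain ⟨X, ε, τ, f, g, hcl, hX, hr, hτ⟩ := Z.even_walk hγ hk hodd
  obtain ⟨c, hc0, hc⟩ := exists_labels τ _ hτ (f 0)
  have hγ1 : γ ≠ 1 := fun h => by rw [h, orderOf_one] at hγ; omega
  have hgen : ∀ t : K, ∃ i, γ ^ i = t := fun t => by
    by_contra h
    have h1 := count_pow hγ hk 1 t
    rw [sum_eq_zero fun j _ => ind_neg fun h2 => h ⟨j, by simpa using h2⟩] at h1
    omega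
  have hB : Ter Z.ι.range := by
    have : Group.IsSolvable (Q ⋊[Z.ρ] K) := Group.isSolvable_of_ker_le_range SemidirectProduct.inl
      SemidirectProduct.rightHom (SemidirectProduct.range_inl_eq_ker_rightHom).ge
    have : Group.IsSolvable Z.ι.range :=
      Group.isSolvable_of_surjective Z.ι.rangeRestrict_surjective
    refine ter_solvable _ _ rfl fun h => hγ1 (sq_eq_one_of_odd_card (hk ▸ hodd) _ (Z.injT ?_))
    rw [map_mul, map_one]
    exact congrArg Subtype.val (h.1 ⟨Z.T γ, Z.T_mem γ⟩)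
  let E : K → K := fun t => if t = τ 0 * γ then γ else 1
  have hprod : ∏ j ∈ range (k * Fintype.card Q), E (τ j) = γ := by
    rw [prod_ite_ind γ (fun j => τ j = τ 0 * γ), hτ, hq, pow_succ, ← hγ, pow_orderOf_eq_one,
      one_mul]
  have hE0 : E (τ 0) = 1 := if_neg fun h => hγ1 (by simpa using h)
  obtain ⟨M, hM⟩ : ∃ M, k * Fintype.card Q = M + 1 + 1 :=
    ⟨k * Fintype.card Q - 2, by rw [hq]; have := Nat.mul_le_mul hk1.le (le_refl (k + 1)); omega⟩
  rw [hM] at hcl hX hc hprod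
  have hW := Z.walk_W (r := fun n => Z.el (X n) (ε n) 1) E (fun n _ => hr n) hc
  have hC := Z.walk_C (fun n => Z.Φ_bij f g c (fun n => E (τ n)) n) hX
  have hmul := Z.Φ_mul f g c (fun n => E (τ n)) (M + 1 + 1)
  have hone : ∀ a, Z.Φ f g c (fun n => E (τ n)) 1 a = (g 0)⁻¹ * a := fun a => by
    simp only [Φ, hE0, hc0, map_one, MulAut.one_apply]
    rw [mul_assoc, mul_comm (f 0)⁻¹, inv_mul_cancel_right]
  have hzero : ∀ a, Z.Φ f g c (fun n => E (τ n)) 0 a = a := fun _ => rfl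
  rw [hprod] at hmul
  generalize Z.Φ f g c (fun n => E (τ n)) = Φ at hW hC hmul hone hzero
  obtain ⟨p, hp⟩ := (ortho_of_fpf (Z.ρ γ) fun x hx => (Z.fpf _ _ hx).resolve_left hγ1).2.2
    (Φ (M + 1 + 1) 1)⁻¹
  have hfix : Φ (M + 1 + 1) p = p := by
    have h1 : p⁻¹ * Z.ρ γ p = (Φ (M + 1 + 1) 1)⁻¹ := hp
    rw [← one_mul p, hmul, one_mul, ← inv_inv (Φ _ 1), ← h1, mul_inv_rev, inv_inv,
      mul_comm _ p, inv_mul_cancel_right]
  have hit : ∀ i b, (Φ (M + 1 + 1))^[i] (p * b) = p * Z.ρ (γ ^ i) b := fun i b => by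
    induction i with
    | zero => simp
    | succ i ih =>
      rw [Function.iterate_succ_apply', ih, hmul, hfix, pow_succ', map_mul, MulAut.mul_apply]
  let v : Q → ℕ → G := fun a n => Z.el (X n) (ε n) 1 * Z.U (Φ n a)
  have hcyc : ∀ S : Finset Q, S.Nonempty → (∀ x ∈ S, Φ (M + 1 + 1) x ∈ S) →
      (∀ x ∈ S, ∀ y ∈ S, ∃ i, (Φ (M + 1 + 1))^[i] x = y) →
      Cyc (∑ a ∈ S, ∑ n ∈ range (M + 1 + 1), ({v a n} : Multiset G))
        (∑ a ∈ S, ∑ n ∈ range (M + 1 + 1), ({s(v a n, v a (n + 1))} : Multiset (Sym2 G))) := by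
    intro S h1 h2 h3
    refine (cyc_orbit _ _ (fun a => v a 0) (fun a => v a (M + 1)) _ S h1 h2 h3
      fun a _ => path_seq (v a) (M + 1)).congr rfl (sum_congr rfl fun a _ => ?_)
    rw [sum_range_succ _ (M + 1), add_comm _ ({_} : Multiset (Sym2 G)), Multiset.singleton_add]
    simp only [v, hcl, hzero]
  have hmem : ∀ (S : Finset Q) a, a ∈ S → s(v a 0, v a 1) ∈
      ∑ a ∈ S, ∑ n ∈ range (M + 1 + 1), ({s(v a n, v a (n + 1))} : Multiset (Sym2 G)) :=
    fun S a ha => Multiset.mem_sum.2 ⟨a, ha, Multiset.mem_sum.2 ⟨0, by simp, by simp⟩⟩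
  obtain ⟨b, hb⟩ := exists_ne (1 : Q)
  have hdec : ∀ y ∈ univ.erase p, ∃ b, b ≠ 1 ∧ y = p * b := fun y hy =>
    ⟨p⁻¹ * y, fun h => (mem_erase.1 hy).1 (inv_mul_eq_one.1 h).symm, by simp⟩
  have hin : ∀ b, b ≠ 1 → p * b ∈ univ.erase p := fun b hb => by simpa using hb
  have hs : (v p 0)⁻¹ * v p 1 = Z.el (p⁻¹ * f 0) (τ 0) p := by
    simp only [v, hzero, hone]
    rw [mul_inv_rev, mul_assoc, ← mul_assoc (Z.el _ _ _)⁻¹, hr 0, ← mul_assoc, U_el_U,
      mul_inv_cancel_left]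
  have hh : v p 0 * ((v p 0)⁻¹ * v p 1)⁻¹ ∈ Z.ι.range := by
    rw [hs]
    simp only [v, hzero, el, map_one, mul_one]
    rw [show Z.U (X 0) * Z.T (ε 0) * Z.w * Z.U p * (Z.U (p⁻¹ * f 0) * Z.T (τ 0) * Z.w * Z.U p)⁻¹
      = Z.U (X 0) * Z.T (ε 0) * (Z.U (p⁻¹ * f 0) * Z.T (τ 0))⁻¹ by group]
    exact mul_mem (mul_mem (Z.U_mem _) (Z.T_mem _)) (inv_mem (mul_mem (Z.U_mem _) (Z.T_mem _)))
  refine ter_glue hB (s := (v p 0)⁻¹ * v p 1) (Z.U_mem b)
    (fun h => hb ((map_eq_one_iff _ Z.injU).1 h)) hh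
    (hcyc {p} (by simp) (by simpa using hfix) (by simpa using ⟨0, rfl⟩)) ?_
    (hcyc (univ.erase p) ⟨_, hin b hb⟩ (fun x hx => ?_) fun x hx y hy => ?_) ?_
    (fun z => ?_) fun z => ?_
  · rw [inv_mul_cancel_right, mul_inv_cancel_left]
    exact hmem _ p (by simp)
  · obtain ⟨a, ha, rfl⟩ := hdec x hx
    rw [hmul, hfix]
    exact hin _ fun h => ha ((map_eq_one_iff _ (Z.ρ γ).injective).1 h)
  · obtain ⟨a, ha, rfl⟩ := hdec x hx
    obtain ⟨a', ha', rfl⟩ := hdec y hy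
    obtain ⟨t, ht⟩ := htr a a' ha ha'
    obtain ⟨i, rfl⟩ := hgen t
    exact ⟨i, by rw [hit, ht]⟩
  · rw [inv_mul_cancel_right, mul_inv_cancel_left]
    have h1 := hmem _ _ (hin b hb)
    have h2 : v (p * b) 0 = v p 0 * Z.U b := by simp only [v, hzero, map_mul, mul_assoc]
    have h3 : v (p * b) 1 = v p 1 * Z.U b := by simp only [v, hone, map_mul, mul_assoc]
    rwa [h2, h3] at h1
  · rw [← hC z, ← add_sum_erase _ _ (mem_univ p)]
    simp only [C_sum, C_singleton, sum_singleton, v]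
  · rw [← hW z, ← add_sum_erase _ _ (mem_univ p)]
    simp only [W_sum, sum_singleton, v, ← Multiset.cons_zero, W_cons, W_zero, add_zero]

end ZD

end Pool.Agent.Lib.MP_0becda_co.PSL
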